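import Pool.Agent.Helper50.Tm.Goals

/-!
Project TAME (MP_f619a5_ag), packet BASE (helper98): base change of Neron models.
-/

open CategoryTheory AlgebraicGeometry Limits TensorProduct MonoidalCategory
open scoped Obj

namespace Pool.Agent.Helper98.Tm

open Pool.Agent.Helper40.Nm (specOver homGroup specialFibre)
open Pool.Agent.Helper50.Tm

section

variable {R M : Type} [CommRing R] [CommRing M] [Algebra R M]
  {Y Z : Over (Spec (CommRingCat.of R))} {C : Type} [CommRing C] [Algebra R C] [Algebra M C]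
  [IsScalarTower R M C]

/-- naturality of `bcEquiv` -/
theorem bcEquiv_comp (x : Pts Y C) (b : Y ⟶ Z) :
    bcEquiv (M := M) Z (x ≫ b) = bcEquiv (M := M) Y x ≫ (bc R M).map b := by
  rw [bcEquiv_eq Z (x ≫ b), bcEquiv_eq Y x, Functor.map_comp, Category.assoc]

end

section

variable {K R M S N : Type} [Field K] [CommRing R] [Field M] [CommRing S] [Field N]
    [Algebra K M] [Algebra R M] [Algebra K N] [Algebra S N] [Algebra M N] [Algebra R S]
    [Algebra R N] [IsScalarTower K M N] [IsScalarTower R M N] [IsScalarTower R S N]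
    {X : Over (Spec (CommRingCat.of K))} [GrpObj X] (𝒢 : NeronModel K R M X)

/-- the projection `(𝒢.G ×_R S) ×_S N → 𝒢.G ×_R M` -/
noncomputable def prj (S N : Type) [CommRing S] [Field N] [Algebra S N] [Algebra M N]
    [Algebra R S] [Algebra R N] [IsScalarTower R M N] [IsScalarTower R S N] :
    ((bc S N).obj ((bc R S).obj 𝒢.G)).left ⟶ ((bc R M).obj 𝒢.G).left :=
  pullback.lift (pullback.fst _ _ ≫ pullback.fst _ _)
    (pullback.snd _ _ ≫ Spec.map (CommRingCat.ofHom (algebraMap M N))) (by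
      have h1 : (pullback.fst 𝒢.G.hom (Spec.map (CommRingCat.ofHom (algebraMap R S)))) ≫
          𝒢.G.hom = ((bc R S).obj 𝒢.G).hom ≫ Spec.map (CommRingCat.ofHom (algebraMap R S)) :=
        pullback.condition
      have h2 : pullback.fst ((bc R S).obj 𝒢.G).hom
          (Spec.map (CommRingCat.ofHom (algebraMap S N))) ≫ ((bc R S).obj 𝒢.G).hom =
          pullback.snd _ _ ≫ Spec.map (CommRingCat.ofHom (algebraMap S N)) := pullback.condition
      rw [Category.assoc, h1, ← Category.assoc, h2, Category.assoc, Category.assoc,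
        ← spec_tower R S N, ← spec_tower R M N])

theorem prj_fst (S N : Type) [CommRing S] [Field N] [Algebra S N] [Algebra M N]
    [Algebra R S] [Algebra R N] [IsScalarTower R M N] [IsScalarTower R S N] :
    prj 𝒢 S N ≫ pullback.fst _ _ = pullback.fst _ _ ≫ pullback.fst _ _ :=
  pullback.lift_fst _ _ _

theorem prj_snd (S N : Type) [CommRing S] [Field N] [Algebra S N] [Algebra M N]
    [Algebra R S] [Algebra R N] [IsScalarTower R M N] [IsScalarTower R S N] :
    prj 𝒢 S N ≫ pullback.snd _ _ =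
      pullback.snd _ _ ≫ Spec.map (CommRingCat.ofHom (algebraMap M N)) :=
  pullback.lift_snd _ _ _

/-- the morphism of the generic fibres -/
noncomputable def vv (S N : Type) [CommRing S] [Field N] [Algebra K N] [Algebra S N] [Algebra M N]
    [Algebra R S] [Algebra R N] [IsScalarTower K M N] [IsScalarTower R M N]
    [IsScalarTower R S N] : (bc S N).obj ((bc R S).obj 𝒢.G) ⟶ (bc K N).obj X :=
  Over.homMk (pullback.lift (prj 𝒢 S N ≫ 𝒢.iso.hom.left ≫ pullback.fst _ _)
    (pullback.snd _ _) (by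
      have h1 : pullback.fst X.hom (Spec.map (CommRingCat.ofHom (algebraMap K M))) ≫ X.hom =
          ((bc K M).obj X).hom ≫ Spec.map (CommRingCat.ofHom (algebraMap K M)) :=
        pullback.condition
      have h2 : 𝒢.iso.hom.left ≫ ((bc K M).obj X).hom = ((bc R M).obj 𝒢.G).hom :=
        Over.w 𝒢.iso.hom
      have h3 : prj 𝒢 S N ≫ ((bc R M).obj 𝒢.G).hom =
          pullback.snd _ _ ≫ Spec.map (CommRingCat.ofHom (algebraMap M N)) := prj_snd 𝒢 S N
      rw [Category.assoc, Category.assoc, h1, ← Category.assoc 𝒢.iso.hom.left, h2,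
        ← Category.assoc, h3, Category.assoc, ← spec_tower K M N])) (by
      exact pullback.lift_snd _ _ _)

theorem vv_fst (S N : Type) [CommRing S] [Field N] [Algebra K N] [Algebra S N] [Algebra M N]
    [Algebra R S] [Algebra R N] [IsScalarTower K M N] [IsScalarTower R M N]
    [IsScalarTower R S N] : (vv 𝒢 S N).left ≫ pullback.fst _ _ =
      prj 𝒢 S N ≫ 𝒢.iso.hom.left ≫ pullback.fst _ _ :=
  pullback.lift_fst _ _ _

end

theorem gBASE : BASE := by
  intro K R M S N _ _ _ _ _ _ _ _ _ _ _ _ _ _ _ X _ 𝒢 ℋ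
  have hsm0 : Smooth 𝒢.G.hom := 𝒢.smooth
  have hsm : Smooth ((bc R S).obj 𝒢.G).hom := by
    change Smooth (pullback.snd 𝒢.G.hom (Spec.map (CommRingCat.ofHom (algebraMap R S))))
    infer_instance
  obtain ⟨b, hb⟩ := (ℋ.neron ((bc R S).obj 𝒢.G) hsm).2 (vv 𝒢 S N)
  refine ⟨b, fun x => ?_⟩
  symm
  rw [sec_eq_iff, gen_apply]
  set s := sec 𝒢 x with hs
  have h1 : Pts.map (Algebra.ofId S N) (bcEquiv (M := S) 𝒢.G (s.map (Algebra.ofId R S)) ≫ b) =
      Pts.map (Algebra.ofId S N) (bcEquiv (M := S) 𝒢.G (s.map (Algebra.ofId R S))) ≫ b := by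
    change _ ≫ _ ≫ _ = (_ ≫ _) ≫ _
    rw [Category.assoc]
  rw [h1, bcEquiv_comp, Category.assoc]
  change (bcEquiv (M := N) X).symm (_ ≫ ((fun v => (bc S N).map v ≫ ℋ.iso.hom) b)) = _
  rw [hb]
  have h2 : gen 𝒢 (C := N) (s.map (Algebra.ofId R N)) =
      x.map (IsScalarTower.toAlgHom K M N) := by
    have h3 := gen_map 𝒢 (C := M) (C' := N) (Algebra.ofId M N)
      (IsScalarTower.toAlgHom R M N) (IsScalarTower.toAlgHom K M N) (fun _ => rfl)
      (fun _ => rfl) (s.map (Algebra.ofId R M))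
    rw [← Pts.map_comp, gen_sec] at h3
    rw [← h3]
    congr 2
    ext
  rw [← h2, gen_apply]
  apply Over.OverMorphism.ext
  rw [bcEquiv_symm_left, bcEquiv_symm_left]
  rw [Over.comp_left, Over.comp_left, Category.assoc, Category.assoc, vv_fst]
  rw [← Category.assoc]
  congr 1
  apply pullback.hom_ext
  · rw [Category.assoc, prj_fst, ← Category.assoc, bcEquiv_left_fst, bcEquiv_left_fst,
      Pts.map_left, Category.assoc, bcEquiv_left_fst, Pts.map_left, Pts.map_left,
      ← Category.assoc, ← Spec.map_comp, ← CommRingCat.ofHom_comp]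
    congr 3
    exact (IsScalarTower.algebraMap_eq R S N).symm
  · rw [Category.assoc, prj_snd, ← Category.assoc]
    have h4 : (bcEquiv (M := N) ((bc R S).obj 𝒢.G)
        ((bcEquiv (M := S) 𝒢.G (s.map (Algebra.ofId R S))).map (Algebra.ofId S N))).left ≫
        pullback.snd _ _ = Spec.map (CommRingCat.ofHom (algebraMap N N)) :=
      Over.w (bcEquiv (M := N) ((bc R S).obj 𝒢.G)
        ((bcEquiv (M := S) 𝒢.G (s.map (Algebra.ofId R S))).map (Algebra.ofId S N)))
    have h5 : (bcEquiv (M := M) 𝒢.G (s.map (Algebra.ofId R N))).left ≫ pullback.snd _ _ =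
        Spec.map (CommRingCat.ofHom (algebraMap M N)) :=
      Over.w (bcEquiv (M := M) 𝒢.G (s.map (Algebra.ofId R N)))
    rw [h4, h5, ← Spec.map_comp, ← CommRingCat.ofHom_comp]

end Pool.Agent.Helper98.Tm
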